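import Pool.Agent.Helper51.GL.INT

/-! Part A_AREA of the GL blueprint (MP_a31c1c_an). -/

set_option autoImplicit false

open MeasureTheory Metric Set Filter Topology

namespace Helper51.GL

open Pool.GL Helper78.GL

variable {M : Type} (T : TS M)

/-- overlap of two discs: the measures of the traces agree -/
lemma overlap (hB : S_TSB) (p q : M) {r r' : ℝ} (hr : r ≤ T.rho p / 4) (hr' : r' ≤ T.rho q / 4)
    (S : Set M) :
    (volume : Measure ℂ) {z | ‖z‖ < r ∧ T.Phi p z ∈ S ∩ T.disc q r'} =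
      (volume : Measure ℂ) {w | ‖w‖ < r' ∧ T.Phi q w ∈ S ∩ T.disc p r} := by
  by_cases hne : ∃ z : ℂ, ‖z‖ < r ∧ T.Phi p z ∈ T.disc q r'
  · obtain ⟨z₁, hz₁, w₁, hw₁, he⟩ := hne
    rw [mem_ball_zero_iff] at hw₁
    have hset : {z : ℂ | ‖z‖ < r ∧ T.Phi p z ∈ S ∩ T.disc q r'} =
        (fun z => z + (w₁ - z₁)) ⁻¹' {w : ℂ | ‖w‖ < r' ∧ T.Phi q w ∈ S ∩ T.disc p r} := by
      ext z
      simp only [mem_ofPred_eq, mem_preimage, mem_inter_iff]
      constructor
      · rintro ⟨hz, hS, w, hw, hw'⟩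
        rw [mem_ball_zero_iff] at hw
        have h1 := (hB M T p q z₁ w₁ (by linarith) (by linarith) he.symm z w (by linarith)
          (by linarith)).1 hw'.symm
        have h2 : z + (w₁ - z₁) = w := by rw [← h1]; ring
        rw [h2]
        refine ⟨hw, ?_, z, by rwa [mem_ball_zero_iff], hw'.symm⟩
        rw [hw']; exact hS
      · rintro ⟨hw, hS, z', hz', hz''⟩
        rw [mem_ball_zero_iff] at hz'
        have h1 := (hB M T p q z₁ w₁ (by linarith) (by linarith) he.symm z' (z + (w₁ - z₁))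
          (by linarith) (by linarith)).1 hz''
        have h2 : z' = z := by linear_combination -h1
        subst h2
        refine ⟨hz', ?_, z' + (w₁ - z₁), by rwa [mem_ball_zero_iff], hz''.symm⟩
        rw [hz'']; exact hS
    rw [hset, measure_preimage_add_right]
  · have h1 : {z : ℂ | ‖z‖ < r ∧ T.Phi p z ∈ S ∩ T.disc q r'} = ∅ := by
      ext z
      simp only [mem_ofPred_eq, mem_empty_iff_false, iff_false]
      exact fun h => hne ⟨z, h.1, h.2.2⟩
    have h2 : {w : ℂ | ‖w‖ < r' ∧ T.Phi q w ∈ S ∩ T.disc p r} = ∅ := by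
      ext w
      simp only [mem_ofPred_eq, mem_empty_iff_false, iff_false]
      rintro ⟨hw, -, z, hz, hz'⟩
      rw [mem_ball_zero_iff] at hz
      exact hne ⟨z, hz, w, by rwa [mem_ball_zero_iff], hz'.symm⟩
    rw [h1, h2]

/-- sets with measurable traces -/
@[reducible] def msp : MeasurableSpace M where
  MeasurableSet' S := ∀ p, MeasurableSet {z : ℂ | ‖z‖ < T.rho p / 4 ∧ T.Phi p z ∈ S}
  measurableSet_empty := by
    intro p
    simp
  measurableSet_compl := by
    intro S hS p
    have h1 := (measurableSet_ball (x := (0 : ℂ)) (ε := T.rho p / 4)).diff (hS p)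
    convert h1 using 1
    ext z
    simp only [mem_ofPred_eq, Set.mem_sdiff, mem_ball_zero_iff, mem_compl_iff]
    tauto
  measurableSet_iUnion := by
    intro f hf p
    have h1 := MeasurableSet.iUnion fun i => hf i p
    convert h1 using 1
    ext z
    simp only [mem_ofPred_eq, mem_iUnion]
    tauto

lemma aemeas (p : M) {r : ℝ} (hr : r ≤ T.rho p / 4) :
    @AEMeasurable ℂ M (msp T) _ (T.Phi p) (volume.restrict (ball (0 : ℂ) r)) := by
  classical
  let _ := msp T
  set g : ℂ → M := fun z => if ‖z‖ < T.rho p / 4 then T.Phi p z else p with hg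
  have hg1 : ∀ z, ‖z‖ < T.rho p / 4 → g z = T.Phi p z := fun z hz => by simp only [hg, if_pos hz]
  have hg2 : ∀ z, ¬ ‖z‖ < T.rho p / 4 → g z = p := fun z hz => by simp only [hg, if_neg hz]
  refine ⟨g, ?_, ?_⟩
  · intro S hS
    have h1 : MeasurableSet {z : ℂ | ‖z‖ < T.rho p / 4 ∧ T.Phi p z ∈ S} := hS p
    have h2 : MeasurableSet {z : ℂ | ¬ ‖z‖ < T.rho p / 4 ∧ p ∈ S} := by
      by_cases hp : p ∈ S
      · simp only [hp, and_true]
        exact (measurableSet_lt measurable_norm measurable_const).compl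
      · simp [hp]
    have hset : g ⁻¹' S = {z : ℂ | ‖z‖ < T.rho p / 4 ∧ T.Phi p z ∈ S} ∪
        {z : ℂ | ¬ ‖z‖ < T.rho p / 4 ∧ p ∈ S} := by
      ext z
      rw [mem_preimage, mem_union, mem_ofPred_eq, mem_ofPred_eq]
      by_cases h : ‖z‖ < T.rho p / 4
      · rw [hg1 z h]; simp [h]
      · rw [hg2 z h]; simp [h]
    rw [hset]
    exact h1.union h2
  · refine (ae_restrict_mem measurableSet_ball).mono fun z hz => ?_
    rw [mem_ball_zero_iff] at hz
    exact (hg1 z (by linarith)).symm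

/-- A_AREA -/
theorem area_thm (hB : S_TSB) (hC : S_COUNT) : S_AREA := by
  intro M T hM
  obtain ⟨c, hc⟩ := hC M T hM
  let _ : MeasurableSpace M := msp T
  have hms : ∀ S : Set M, (∀ p, MeasurableSet {z : ℂ | ‖z‖ < T.rho p / 4 ∧ T.Phi p z ∈ S}) →
      MeasurableSet S := fun S hS => hS
  have hms' : ∀ S : Set M, MeasurableSet S → ∀ p r, r ≤ T.rho p / 4 →
      MeasurableSet {z : ℂ | ‖z‖ < r ∧ T.Phi p z ∈ S} := by
    intro S hS p r hr
    have h1 := (measurableSet_ball (x := (0 : ℂ)) (ε := r)).inter (hS p)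
    convert h1 using 1
    ext z
    simp only [mem_ofPred_eq, mem_inter_iff, mem_ball_zero_iff]
    constructor
    · rintro ⟨h2, h3⟩
      exact ⟨h2, by linarith, h3⟩
    · rintro ⟨h2, h3, h4⟩
      exact ⟨h2, h4⟩
  -- the discs and the partition
  set Dn : ℕ → Set M := fun n => T.disc (c n) (T.rho (c n) / 4) with hDn
  have hDm : ∀ n, MeasurableSet (Dn n) := fun n => hms _ fun q =>
    (isOpen_trace T hB (c n) q le_rfl).measurableSet
  have hBm : ∀ n, MeasurableSet (disjointed Dn n) := fun n => MeasurableSet.disjointed hDm n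
  have hBu : ⋃ n, disjointed Dn n = univ := by
    rw [iUnion_disjointed, eq_univ_iff_forall]
    intro x
    obtain ⟨n, z, hz, hx⟩ := hc x
    rw [mem_iUnion]
    exact ⟨n, z, by rwa [mem_ball_zero_iff], hx.symm⟩
  have hBd := disjoint_disjointed Dn
  set μ : Measure M := Measure.sum fun n =>
    (Measure.map (T.Phi (c n)) (volume.restrict (ball (0 : ℂ) (T.rho (c n) / 4)))).restrict
      (disjointed Dn n) with hμ
  refine ⟨msp T, μ, hms, ?_⟩
  intro p r hr hr'
  refine ⟨aemeas T p hr', ?_⟩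
  have hdisc : MeasurableSet (T.disc p r) := hms _ fun q =>
    (isOpen_trace T hB p q hr').measurableSet
  ext S hS
  rw [Measure.restrict_apply hS, Measure.map_apply_of_aemeasurable (aemeas T p hr') hS,
    Measure.restrict_apply' measurableSet_ball, hμ,
    Measure.sum_apply _ (hS.inter hdisc)]
  have hterm : ∀ n, ((Measure.map (T.Phi (c n))
      (volume.restrict (ball (0 : ℂ) (T.rho (c n) / 4)))).restrict (disjointed Dn n))
      (S ∩ T.disc p r) =
      (volume : Measure ℂ) {z | ‖z‖ < r ∧ T.Phi p z ∈ S ∩ disjointed Dn n} := by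
    intro n
    rw [Measure.restrict_apply (hS.inter hdisc),
      Measure.map_apply_of_aemeasurable (aemeas T (c n) le_rfl)
        ((hS.inter hdisc).inter (hBm n)), Measure.restrict_apply' measurableSet_ball]
    have h1 := overlap T hB p (c n) hr' le_rfl (S ∩ disjointed Dn n)
    have h2 : {z : ℂ | ‖z‖ < r ∧ T.Phi p z ∈ (S ∩ disjointed Dn n) ∩
        T.disc (c n) (T.rho (c n) / 4)} = {z | ‖z‖ < r ∧ T.Phi p z ∈ S ∩ disjointed Dn n} := by
      ext z
      simp only [mem_ofPred_eq, mem_inter_iff]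
      constructor
      · rintro ⟨h3, ⟨h4, h5⟩, -⟩
        exact ⟨h3, h4, h5⟩
      · rintro ⟨h3, h4, h5⟩
        exact ⟨h3, ⟨h4, h5⟩, disjointed_subset Dn n h5⟩
    rw [h2] at h1
    rw [h1]
    congr 1
    ext w
    simp only [mem_ofPred_eq, mem_inter_iff, mem_preimage, mem_ball_zero_iff]
    tauto
  simp_rw [hterm]
  rw [← measure_iUnion]
  · congr 1
    ext z
    simp only [mem_iUnion, mem_ofPred_eq, mem_inter_iff, mem_preimage, mem_ball_zero_iff]
    constructor
    · rintro ⟨n, h1, h2, h3⟩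
      exact ⟨h2, h1⟩
    · rintro ⟨h1, h2⟩
      have : T.Phi p z ∈ ⋃ n, disjointed Dn n := by rw [hBu]; trivial
      rw [mem_iUnion] at this
      obtain ⟨n, hn⟩ := this
      exact ⟨n, h2, h1, hn⟩
  · intro m n hmn
    rw [Function.onFun, Set.disjoint_left]
    rintro z ⟨-, -, h1⟩ ⟨-, -, h2⟩
    exact Set.disjoint_left.1 (hBd hmn) h1 h2
  · intro n
    exact hms' _ (hS.inter (hBm n)) p r hr'

end Helper51.GL
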