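import Pool.Agent.Helper78.GL.Spec

/-! Part A_COUNT of the GL blueprint (MP_a31c1c_an). -/

set_option autoImplicit false

open MeasureTheory Metric Set Filter Topology

namespace Helper51.GL

open Pool.GL Helper78.GL

variable {M : Type} (T : TS M)

/-- rational complex number -/
noncomputable def rc (q : ℚ × ℚ) : ℂ := ((q.1 : ℝ) : ℂ) + ((q.2 : ℝ) : ℂ) * Complex.I

lemma exists_rc (w : ℂ) {δ : ℝ} (hδ : 0 < δ) : ∃ q : ℚ × ℚ, ‖w - rc q‖ < δ := by
  obtain ⟨a, ha1, ha2⟩ := exists_rat_btwn (show w.re - δ / 2 < w.re by linarith)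
  obtain ⟨b, hb1, hb2⟩ := exists_rat_btwn (show w.im - δ / 2 < w.im by linarith)
  refine ⟨(a, b), ?_⟩
  have h1 := Complex.norm_le_abs_re_add_abs_im (w - rc (a, b))
  have h2 : (w - rc (a, b)).re = w.re - a := by simp [rc]
  have h3 : (w - rc (a, b)).im = w.im - b := by simp [rc]
  rw [h2, h3, abs_of_pos (by linarith), abs_of_pos (by linarith)] at h1
  linarith

/-- points reached by rational steps -/
noncomputable def walk (p₀ : M) : List (ℚ × ℚ) → M
  | [] => p₀
  | q :: L => T.Phi (walk p₀ L) (rc q)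

/-- A_COUNT -/
theorem count_thm (hA : S_TSA) (hC : S_TSC) : S_COUNT := by
  intro M T hM
  obtain ⟨p₀⟩ := hM
  have key : ∀ x, ∀ ε > 0, ∃ (L : List (ℚ × ℚ)) (z : ℂ), ‖z‖ < ε ∧ x = T.Phi (walk T p₀ L) z ∧
      ‖z‖ < T.rho (walk T p₀ L) / 4 := by
    intro x
    have hx := hC M T (1 / 8) (by norm_num) p₀ x
    induction hx with
    | refl =>
      intro ε hε
      refine ⟨[], 0, by simpa using hε, (T.Phi_zero _).symm, ?_⟩
      have := T.rho_pos (walk T p₀ [])
      simpa using this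
    | @tail x y _ hxy ih =>
      intro ε hε
      obtain ⟨h, hh, rfl⟩ := hxy
      have hρ := T.rho_pos x
      set δ := min ε (T.rho x / 16) with hδ
      have hδ0 : 0 < δ := lt_min hε (by linarith)
      have hδ1 : δ ≤ ε := min_le_left _ _
      have hδ2 : δ ≤ T.rho x / 16 := min_le_right _ _
      obtain ⟨L, z, hz, hxz, hz4⟩ := ih δ hδ0
      obtain ⟨q, hq⟩ := exists_rc (z + h) hδ0
      have hρc := T.rho_pos (walk T p₀ L)
      have h1 := (hA M T (walk T p₀ L) z (by linarith)).1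
      rw [← hxz] at h1
      have h2 : ‖z + h‖ ≤ ‖z‖ + ‖h‖ := norm_add_le _ _
      have h3 : ‖rc q‖ ≤ ‖z + h‖ + ‖z + h - rc q‖ := by
        have : rc q = (z + h) - (z + h - rc q) := by ring
        calc ‖rc q‖ = ‖(z + h) - (z + h - rc q)‖ := by rw [← this]
          _ ≤ _ := norm_sub_le _ _
      have h4 : T.Phi x h = T.Phi (walk T p₀ L) (z + h) := by
        rw [hxz]
        exact T.Phi_add _ _ _ (by linarith)
      have h5 : T.Phi (T.Phi (walk T p₀ L) (rc q)) (z + h - rc q) =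
          T.Phi (walk T p₀ L) (z + h) := by
        rw [T.Phi_add _ _ _ (by linarith)]
        congr 1
        ring
      have h6 := T.rho_lip (walk T p₀ L) (rc q) (by linarith)
      refine ⟨q :: L, z + h - rc q, by linarith, ?_, ?_⟩
      · rw [h4, ← h5]; rfl
      · have h7 : walk T p₀ (q :: L) = T.Phi (walk T p₀ L) (rc q) := rfl
        rw [h7]
        linarith
  obtain ⟨f, hf⟩ := exists_surjective_nat (List (ℚ × ℚ))
  refine ⟨fun n => walk T p₀ (f n), fun x => ?_⟩
  obtain ⟨L, z, -, h1, h2⟩ := key x 1 one_pos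
  obtain ⟨n, rfl⟩ := hf L
  exact ⟨n, z, h2, h1⟩

end Helper51.GL
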