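import Pool.Agent.Helper78.GL.AvgLib

/-! Part A_LOCH of the GL blueprint (MP_a31c1c_an). -/

set_option autoImplicit false

open MeasureTheory Metric Set Filter Topology

namespace Helper51.GL

open Pool.GL Helper78.GL

lemma dX_translate (f : ℂ → ℝ) (c : ℂ) : dX (fun z => f (z + c)) = fun z => dX f (z + c) := by
  funext z
  simp only [dX]
  rw [fderiv_comp_add_right]

lemma dY_translate (f : ℂ → ℝ) (c : ℂ) : dY (fun z => f (z + c)) = fun z => dY f (z + c) := by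
  funext z
  simp only [dY]
  rw [fderiv_comp_add_right]

lemma lap_translate (f : ℂ → ℝ) (c z : ℂ) : lap (fun z => f (z + c)) z = lap f (z + c) := by
  simp only [lap]
  rw [dX_translate, dY_translate, dX_translate, dY_translate]

lemma lap_zero (z : ℂ) : lap (fun _ => (0 : ℝ)) z = 0 := by
  have h1 : dX (fun _ : ℂ => (0 : ℝ)) = fun _ => 0 := by
    funext z; simp [dX]
  have h2 : dY (fun _ : ℂ => (0 : ℝ)) = fun _ => 0 := by
    funext z; simp [dY]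
  simp only [lap]
  rw [h1, h2, h1, h2]
  simp

/-- the kernel -/
noncomputable def KK (P : Profile) (r₀ : ℝ) (w : ℂ) : ℝ := (r₀⁻¹) ^ 2 * P.χ ((r₀⁻¹ : ℝ) * w)

lemma KK_smooth (P : Profile) (r₀ : ℝ) : ContDiff ℝ (⊤ : ℕ∞) (KK P r₀) := by
  have h : ContDiff ℝ (⊤ : ℕ∞) (fun w : ℂ => ((r₀⁻¹ : ℝ) : ℂ) * w) := by fun_prop
  exact contDiff_const.mul (P.χ_smooth.comp h)

lemma KK_supp (P : Profile) {r₀ : ℝ} (hr : 0 < r₀) (w : ℂ) (hw : r₀ ≤ ‖w‖) : KK P r₀ w = 0 := by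
  rw [KK, P.χ_supp, mul_zero]
  rw [norm_mul, Complex.norm_real, Real.norm_eq_abs, abs_of_pos (inv_pos.2 hr)]
  rw [← mul_le_mul_iff_right₀ hr, ← mul_assoc, mul_inv_cancel₀ hr.ne', one_mul, mul_one]
  exact hw

variable {M : Type}

lemma Test.cont {T : TS M} {v : M → ℝ} (h : T.Test v) : T.Cont v :=
  fun p => (h.1 p).continuousOn

/-- A_LOCH -/
theorem loch_thm (hB : S_TSB) (hU : S_BUMP) : S_LOCH := by
  intro P M T _ μ p₀ r₀ hμ hr₀ hr₀' p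
  have main : ∀ h : ℂ → ℝ, ContDiff ℝ (⊤ : ℕ∞) h →
      (∀ z : ℂ, ‖z‖ < T.rho p / 4 → lap h z = - T.bump p₀ (KK P r₀) (T.Phi p z)) →
      ∀ (ψ : ℂ → ℝ) (r : ℝ), ContDiff ℝ (⊤ : ℕ∞) ψ → 0 < r → r < T.rho p / 4 →
      (∀ w : ℂ, r ≤ ‖w‖ → ψ w = 0) →
      base P T p₀ r₀ (T.bump p ψ) = - ∫ z : ℂ, lap h z * ψ z := by
    intro h _ hlap ψ r hψ hr hr' hs
    obtain ⟨b1, b2, -, b4⟩ := hU M T μ hμ p ψ r hψ hr hr' hs
    obtain ⟨c1, c2, -, c4⟩ := hU M T μ hμ p₀ (KK P r₀) r₀ (KK_smooth P r₀) hr₀ hr₀'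
      (KK_supp P hr₀)
    have e1 := c4 (T.bump p ψ) (Test.cont b1)
    have e2 := b4 (T.bump p₀ (KK P r₀)) (Test.cont c1)
    rw [base, avg_eq P _ 0 hr₀]
    have e3 : ∫ y : ℂ, ((r₀⁻¹) ^ 2 * P.χ (((r₀⁻¹ : ℝ) : ℂ) * (y - 0))) *
        T.bump p ψ (T.Phi p₀ y) = ∫ z : ℂ, T.bump p ψ (T.Phi p₀ z) * KK P r₀ z := by
      congr 1
      funext y
      rw [sub_zero, KK, mul_comm]
    rw [e3, ← e1]
    have e4 : ∫ x, T.bump p ψ x * T.bump p₀ (KK P r₀) x ∂μ =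
        ∫ x, T.bump p₀ (KK P r₀) x * T.bump p ψ x ∂μ := by
      congr 1
      funext x
      ring
    rw [e4, e2, ← integral_neg]
    congr 1
    funext z
    by_cases hz : ‖z‖ < T.rho p / 4
    · rw [hlap z hz]; ring
    · rw [hs z (by linarith [not_lt.1 hz])]; ring
  by_cases hov : ∃ z₁ w₁ : ℂ, ‖z₁‖ < T.rho p / 4 ∧ ‖w₁‖ < T.rho p₀ / 4 ∧
      T.Phi p z₁ = T.Phi p₀ w₁
  · obtain ⟨z₁, w₁, hz₁, hw₁, he⟩ := hov
    have hh : ContDiff ℝ (⊤ : ℕ∞) (fun z => P.h r₀ (z + (w₁ - z₁))) :=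
      (P.h_smooth r₀ hr₀).comp (contDiff_id.add contDiff_const)
    have hlap : ∀ z : ℂ, ‖z‖ < T.rho p / 4 → lap (fun z => P.h r₀ (z + (w₁ - z₁))) z =
        - T.bump p₀ (KK P r₀) (T.Phi p z) := by
      intro z hz
      rw [lap_translate, P.h_lap r₀ hr₀]
      congr 1
      have hK : (r₀⁻¹) ^ 2 * P.χ ((r₀⁻¹ : ℝ) * (z + (w₁ - z₁))) = KK P r₀ (z + (w₁ - z₁)) := rfl
      rw [hK]
      unfold Pool.GL.TS.bump
      split_ifs with hex
      · have hs := hex.choose_spec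
        have h1 := (hB M T p p₀ z₁ w₁ hz₁ hw₁ he z hex.choose hz hs.1).1 hs.2
        rw [← h1]
        congr 1
        ring
      · apply KK_supp P hr₀
        by_contra hlt
        push Not at hlt
        apply hex
        refine ⟨z + (w₁ - z₁), by linarith, ?_⟩
        rw [hB M T p p₀ z₁ w₁ hz₁ hw₁ he z (z + (w₁ - z₁)) hz (by linarith)]
        ring
    exact ⟨_, hh, hlap, main _ hh hlap⟩
  · have hlap : ∀ z : ℂ, ‖z‖ < T.rho p / 4 → lap (fun _ => (0 : ℝ)) z =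
        - T.bump p₀ (KK P r₀) (T.Phi p z) := by
      intro z hz
      rw [lap_zero]
      unfold Pool.GL.TS.bump
      rw [dif_neg, neg_zero]
      rintro ⟨w, hw, he⟩
      exact hov ⟨z, w, hz, hw, he⟩
    exact ⟨_, contDiff_const, hlap, main _ contDiff_const hlap⟩

end Helper51.GL
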