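import Pool.Agent.Helper78.GL.AvgLib
import Pool.Agent.Helper78.GL.FINA
import Pool.Agent.Helper51.GL.LOCH

/-! Part A_GLUE of the GL blueprint (MP_a31c1c_an). -/

set_option autoImplicit false

open MeasureTheory Metric Set Filter Topology

namespace Helper51.GL

open Pool.GL Helper78.GL

variable {M : Type}

lemma Test.sub {T : TS M} [MeasurableSpace M] {μ : Measure M} (hT : S_TST) (hμ : T.IsArea μ)
    {v w : M → ℝ} (hv : T.Test v) (hw : T.Test w) : T.Test (fun x => v x - w x) := by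
  have := (hT M T μ hμ).2.1 v w hv hw 1 (-1)
  have h2 : (fun x => (1 : ℝ) * v x + (-1) * w x) = fun x => v x - w x := by
    funext x; ring
  rwa [h2] at this

/-- continuity of a test function in a closed ball of a chart -/
lemma Test.contOn {T : TS M} {v : M → ℝ} (h : T.Test v) (p : M) {z : ℂ} {s : ℝ}
    (hz : ‖z‖ + s < T.rho p) : ContinuousOn (fun z => v (T.Phi p z)) (closedBall z s) :=
  ((h.1 p).continuousOn).mono (cb_sub hz)

/-- change of the base point in an average -/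
lemma avg_rebase (P : Profile) (T : TS M) (v : M → ℝ) (p : M) {z : ℂ} {s : ℝ} (hs : 0 ≤ s)
    (hz : ‖z‖ + s < T.rho p) :
    avg P.χ (fun y => v (T.Phi (T.Phi p z) y)) 0 s = avg P.χ (fun y => v (T.Phi p y)) z s := by
  unfold avg
  congr 1
  funext w
  by_cases hw : ‖w‖ < 1
  · have h1 : ‖(s : ℂ) * w‖ ≤ s := by
      rw [norm_mul, Complex.norm_real, Real.norm_eq_abs, abs_of_nonneg hs]
      nlinarith
    show P.χ w * v (T.Phi (T.Phi p z) (0 + (s : ℂ) * w)) = P.χ w * v (T.Phi p (z + (s : ℂ) * w))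
    rw [zero_add, T.Phi_add p z _ (by linarith)]
  · rw [P.χ_supp w (not_lt.1 hw), zero_mul, zero_mul]

/-- A_GLUE -/
theorem glue_thm (hSEQ : S_SEQ) (hCH : S_CHAIN) (hNEG : S_NEG) (hLO : S_LOCH) (hLL : S_LL)
    (hTST : S_TST) (hBU : S_BUMP) : S_GLUE := by
  intro P M T _ μ p₀ r₀ hμ hb
  obtain ⟨v, hv⟩ := hSEQ P M T μ p₀ r₀ hμ hb
  obtain ⟨hv1, hv2, hv3⟩ := hv
  have hρ := T.rho_pos
  -- local Green functions
  have loc : ∀ p : M, ∃ g : ℂ → ℝ, ContDiffOn ℝ 2 g (ball 0 (T.rho p / 4)) ∧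
      (∀ z ∈ ball (0 : ℂ) (T.rho p / 4), lap g z =
        - T.bump p₀ (fun w => (r₀⁻¹) ^ 2 * P.χ ((r₀⁻¹ : ℝ) * w)) (T.Phi p z)) ∧
      ∀ (z : ℂ) (s : ℝ), 0 < s → ‖z‖ + s < T.rho p / 4 →
        Tendsto (fun n => avg P.χ (fun y => v n (T.Phi p y)) z s) atTop (𝓝 (avg P.χ g z s)) := by
    intro p
    have hρp := hρ p
    obtain ⟨h, hh, hlap, hbase⟩ := hLO P M T μ p₀ r₀ hμ hb.1 hb.2.1 p
    have hR : 0 < T.rho p / 4 := by linarith
    have H2 : ∀ R', 0 < R' → R' < T.rho p / 4 → ∀ ε, 0 < ε → ∃ N, ∀ n m, N ≤ n → N ≤ m →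
        en (fun z => v n (T.Phi p z) - v m (T.Phi p z)) R' ≤ ε := by
      -- Cauchy in energy
      intro R' hR' hR'R ε hε
      obtain ⟨N, hN⟩ := hv2 ε hε
      refine ⟨N, fun n m hn hm => ?_⟩
      have h1 := (hTST M T μ hμ).2.2.2.2.2 (fun x => v n x - v m x)
        (Test.sub hTST hμ (hv1 n) (hv1 m)) p R' hR' hR'R.le
      exact h1.trans (hN n m hn hm)
    have H3 : ∃ r₁ l, 0 < r₁ ∧ r₁ < T.rho p / 4 ∧
        Tendsto (fun n => avg P.χ (fun z => v n (T.Phi p z)) 0 r₁) atTop (𝓝 l) := by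
      -- convergence of one average
      have hr1 : 0 < T.rho p / 8 := by linarith
      obtain ⟨-, -, C, hC⟩ := hCH P M T μ p₀ r₀ hμ hb p (T.rho p / 8) hr1 (by linarith)
      have hcs : CauchySeq fun n => avg P.χ (fun z => v n (T.Phi p z)) 0 (T.rho p / 8) := by
        rw [Metric.cauchySeq_iff]
        intro ε hε
        have hε' : 0 < (ε / (|C| + 1) / 2) ^ 2 := by positivity
        obtain ⟨N, hN⟩ := hv2 _ hε'
        refine ⟨N, fun n hn m hm => ?_⟩
        have h1 := hC (fun x => v n x - v m x) (Test.sub hTST hμ (hv1 n) (hv1 m))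
        rw [base] at h1
        have hz : ‖(0 : ℂ)‖ + T.rho p / 8 < T.rho p := by rw [norm_zero]; linarith
        rw [avg_sub P hr1.le (Test.contOn (hv1 n) p hz) (Test.contOn (hv1 m) p hz)] at h1
        rw [Real.dist_eq]
        have h2 : √(T.D μ (fun x => v n x - v m x) (fun x => v n x - v m x)) ≤
            ε / (|C| + 1) / 2 := by
          rw [Real.sqrt_le_left (by positivity)]
          exact hN n m hn hm
        have h3 : C * √(T.D μ (fun x => v n x - v m x) (fun x => v n x - v m x)) ≤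
            |C| * (ε / (|C| + 1) / 2) :=
          (mul_le_mul_of_nonneg_right (le_abs_self C) (Real.sqrt_nonneg _)).trans
            (mul_le_mul_of_nonneg_left h2 (abs_nonneg C))
        have h4 : |C| * (ε / (|C| + 1) / 2) < ε := by
          have h5 : 0 < |C| + 1 := by positivity
          have h6 : |C| * (ε / (|C| + 1) / 2) = ε * (|C| / (2 * (|C| + 1))) := by
            field_simp
          rw [h6]
          have h7 : |C| / (2 * (|C| + 1)) < 1 := by
            rw [div_lt_one (by positivity)]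
            linarith [abs_nonneg C]
          nlinarith
        linarith
      obtain ⟨l, hl⟩ := cauchySeq_tendsto_of_complete hcs
      exact ⟨T.rho p / 8, l, hr1, by linarith, hl⟩
    have H4 : ∀ ψ : ℂ → ℝ, ContDiff ℝ (⊤ : ℕ∞) ψ →
        (∃ r, 0 < r ∧ r < T.rho p / 4 ∧ ∀ w : ℂ, r ≤ ‖w‖ → ψ w = 0) →
        Tendsto (fun n => ∫ z : ℂ, (dX (fun z => v n (T.Phi p z)) z * dX ψ z +
          dY (fun z => v n (T.Phi p z)) z * dY ψ z)) atTop
          (𝓝 (- ∫ z : ℂ, lap h z * ψ z)) := by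
      -- weak equation
      rintro ψ hψ ⟨r, hr, hrR, hsupp⟩
      obtain ⟨b1, -, b3, -⟩ := hBU M T μ hμ p ψ r hψ hr hrR hsupp
      have e1 : (fun n => ∫ z : ℂ, (dX (fun z => v n (T.Phi p z)) z * dX ψ z +
          dY (fun z => v n (T.Phi p z)) z * dY ψ z)) = fun n => T.D μ (v n) (T.bump p ψ) := by
        funext n
        rw [b3 (v n) (hv1 n)]
      have e2 := hbase ψ r hψ hr hrR hsupp
      rw [e1, ← e2, Metric.tendsto_atTop]
      intro ε hε
      set B := √(T.D μ (T.bump p ψ) (T.bump p ψ)) with hBdef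
      have hB0 : 0 ≤ B := Real.sqrt_nonneg _
      obtain ⟨N, hN⟩ := hv3 (ε / (B + 1) / 2) (by positivity)
      refine ⟨N, fun n hn => ?_⟩
      rw [Real.dist_eq]
      refine (hN n hn _ b1).trans_lt ?_
      rw [← hBdef]
      have h6 : ε / (B + 1) / 2 * B = ε * (B / (2 * (B + 1))) := by
        field_simp
      rw [h6]
      have h7 : B / (2 * (B + 1)) < 1 := by
        rw [div_lt_one (by positivity)]
        linarith
      nlinarith
    obtain ⟨g, hg1, hg2, hg3⟩ := hLL P (T.rho p / 4) (fun n z => v n (T.Phi p z)) h hR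
      (fun n => ((hv1 n).1 p).mono (ball_subset_ball (by linarith))) hh H2 H3 H4
    refine ⟨g, hg1, ?_, hg3⟩
    intro z hz
    rw [hg2 z hz, hlap z (by rwa [mem_ball_zero_iff] at hz)]
  choose g hg1 hg2 hg3 using loc
  -- compatibility
  have comp : ∀ (p : M) (z : ℂ), ‖z‖ < T.rho p / 4 → g (T.Phi p z) 0 = g p z := by
    intro p z hz
    have hρp := hρ p
    have hρx := hρ (T.Phi p z)
    have t1 := avg_small P (z := (0 : ℂ)) (R := T.rho (T.Phi p z) / 4)
      (by rw [norm_zero]; linarith) (hg1 (T.Phi p z)).continuousOn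
    have t2 := avg_small P (z := z) (R := T.rho p / 4) hz (hg1 p).continuousOn
    refine tendsto_nhds_unique_of_eventuallyEq t1 t2 ?_
    have hm : 0 < min (T.rho (T.Phi p z) / 4) (T.rho p / 4 - ‖z‖) :=
      lt_min (by linarith) (by linarith)
    filter_upwards [Ioo_mem_nhdsGT hm] with s hs
    have hs1 : s < T.rho (T.Phi p z) / 4 := lt_of_lt_of_le hs.2 (min_le_left _ _)
    have hs2 : s < T.rho p / 4 - ‖z‖ := lt_of_lt_of_le hs.2 (min_le_right _ _)
    have l1 := hg3 (T.Phi p z) 0 s hs.1 (by rw [norm_zero]; linarith)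
    have l2 := hg3 p z s hs.1 (by linarith)
    have l3 : (fun n => avg P.χ (fun y => v n (T.Phi (T.Phi p z) y)) 0 s) =
        fun n => avg P.χ (fun y => v n (T.Phi p y)) z s := by
      funext n
      exact avg_rebase P T (v n) p hs.1.le (by linarith)
    rw [l3] at l1
    exact tendsto_nhds_unique l1 l2
  refine ⟨fun x => g x 0, ?_, ?_, ?_⟩
  · -- regularity
    intro p z₀ hz₀
    rw [mem_ball_zero_iff] at hz₀
    have hρx := hρ (T.Phi p z₀)
    have hm : 0 < min (T.rho (T.Phi p z₀) / 4) (T.rho p - ‖z₀‖) :=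
      lt_min (by linarith) (by linarith)
    have hev : (fun z => g (T.Phi p z) 0) =ᶠ[𝓝 z₀] fun z => g (T.Phi p z₀) (z - z₀) := by
      filter_upwards [ball_mem_nhds z₀ hm] with z hz
      rw [mem_ball, dist_eq_norm] at hz
      have h1 : ‖z - z₀‖ < T.rho (T.Phi p z₀) / 4 := lt_of_lt_of_le hz (min_le_left _ _)
      have h2 : ‖z - z₀‖ < T.rho p - ‖z₀‖ := lt_of_lt_of_le hz (min_le_right _ _)
      rw [← comp (T.Phi p z₀) (z - z₀) h1, T.Phi_add p z₀ (z - z₀) (by linarith)]
      congr 2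
      ring
    have hcd : ContDiffAt ℝ 2 (fun z => g (T.Phi p z₀) (z - z₀)) z₀ := by
      have h3 : ContDiffAt ℝ 2 (g (T.Phi p z₀)) (z₀ - z₀) := by
        rw [sub_self]
        exact (hg1 (T.Phi p z₀)).contDiffAt (ball_mem_nhds 0 (by linarith))
      exact ContDiffAt.comp (g := g (T.Phi p z₀)) (f := fun z => z - z₀) z₀ h3
        (contDiffAt_id.sub contDiffAt_const)
    exact (hcd.congr_of_eventuallyEq hev).contDiffWithinAt
  · -- Laplacian
    intro p
    have hρp := hρ p
    have hev : (fun z => g (T.Phi p z) 0) =ᶠ[𝓝 (0 : ℂ)] g p := by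
      filter_upwards [ball_mem_nhds (0 : ℂ) (show 0 < T.rho p / 4 by linarith)] with z hz
      rw [mem_ball_zero_iff] at hz
      exact comp p z hz
    rw [lap_congr hev, hg2 p 0 (mem_ball_self (by linarith)), T.Phi_zero]
  · -- lower bound
    intro p
    have hρp := hρ p
    have t1 := avg_small P (z := (0 : ℂ)) (R := T.rho p / 4)
      (by rw [norm_zero]; linarith) (hg1 p).continuousOn
    refine ge_of_tendsto t1 ?_
    filter_upwards [Ioo_mem_nhdsGT (show 0 < T.rho p / 4 by linarith)] with s hs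
    have l1 := hg3 p 0 s hs.1 (by rw [norm_zero]; linarith [hs.2])
    refine le_of_forall_pos_le_add fun ε hε => ?_
    have h1 : -1 - ε ≤ avg P.χ (g p) 0 s := by
      refine ge_of_tendsto l1 ?_
      obtain ⟨N, hN⟩ := hNEG P M T μ p₀ r₀ v hμ hb ⟨hv1, hv2, hv3⟩ p s hs.1 hs.2 ε hε
      filter_upwards [eventually_ge_atTop N] with n hn
      exact hN n hn
    linarith

end Helper51.GL
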