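import Pool.Agent.Helper78.GL.AvgLib
import Pool.Agent.Helper78.GL.FINA
import Pool.Agent.Helper51.GL.LOCH

/-! Part A_GREEN of the GL blueprint (MP_a31c1c_an). -/

set_option autoImplicit false

open MeasureTheory Metric Set Filter Topology

namespace Helper51.GL

open Pool.GL Helper78.GL

/-- second derivative of `exp (-f)` in a direction -/
lemma second_exp (f : ℂ → ℝ) (z e : ℂ) (hf : ContDiffAt ℝ 2 f z) :
    fderiv ℝ (fun w => fderiv ℝ (fun y => Real.exp (- f y)) w e) z e =
      Real.exp (- f z) * ((fderiv ℝ f z e) ^ 2 - fderiv ℝ (fun w => fderiv ℝ f w e) z e) := by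
  have hev : (fun w => fderiv ℝ (fun y => Real.exp (- f y)) w e) =ᶠ[𝓝 z]
      fun w => - (Real.exp (- f w) * fderiv ℝ f w e) := by
    filter_upwards [(hf.of_le (by norm_num : (1 : WithTop ℕ∞) ≤ 2)).eventually (by simp)] with w hw
    have h1 : HasFDerivAt f (fderiv ℝ f w) w := (hw.differentiableAt (by norm_num)).hasFDerivAt
    have h2 : HasFDerivAt (fun y => Real.exp (- f y)) (Real.exp (- f w) • -fderiv ℝ f w) w :=
      (h1.neg).exp
    rw [h2.fderiv]
    simp
  rw [hev.fderiv_eq]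
  have h1 : HasFDerivAt f (fderiv ℝ f z) z :=
    (hf.differentiableAt (by norm_num)).hasFDerivAt
  have h2 : HasFDerivAt (fun y => Real.exp (- f y)) (Real.exp (- f z) • -fderiv ℝ f z) z :=
    (h1.neg).exp
  have h3 : ContDiffAt ℝ 1 (fun w => fderiv ℝ f w e) z :=
    (hf.fderiv_right (m := 1) (by norm_num)).clm_apply contDiffAt_const
  have h4 : HasFDerivAt (fun w => fderiv ℝ f w e) (fderiv ℝ (fun w => fderiv ℝ f w e) z) z :=
    (h3.differentiableAt (by norm_num)).hasFDerivAt
  have h5 : HasFDerivAt (fun w => - (Real.exp (- f w) * fderiv ℝ f w e))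
      (-(Real.exp (-f z) • fderiv ℝ (fun w => (fderiv ℝ f w) e) z +
        (fderiv ℝ f z) e • Real.exp (-f z) • -fderiv ℝ f z)) z := (h2.mul h4).neg
  rw [h5.fderiv]
  simp
  ring

lemma lap_exp (f : ℂ → ℝ) (z : ℂ) (hf : ContDiffAt ℝ 2 f z) :
    lap (fun y => Real.exp (- f y)) z =
      Real.exp (- f z) * ((dX f z) ^ 2 + (dY f z) ^ 2 - lap f z) := by
  have h1 := second_exp f z 1 hf
  have h2 := second_exp f z Complex.I hf
  simp only [lap]
  have e1 : dX (dX fun y => Real.exp (- f y)) z =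
      fderiv ℝ (fun w => fderiv ℝ (fun y => Real.exp (- f y)) w 1) z 1 := rfl
  have e2 : dY (dY fun y => Real.exp (- f y)) z =
      fderiv ℝ (fun w => fderiv ℝ (fun y => Real.exp (- f y)) w Complex.I) z Complex.I := rfl
  rw [e1, e2, h1, h2]
  have e3 : dX (dX f) z = fderiv ℝ (fun w => fderiv ℝ f w 1) z 1 := rfl
  have e4 : dY (dY f) z = fderiv ℝ (fun w => fderiv ℝ f w Complex.I) z Complex.I := rfl
  rw [e3, e4]
  simp only [dX, dY]
  ring

lemma KK_nonneg (P : Profile) (r₀ : ℝ) (w : ℂ) : 0 ≤ KK P r₀ w :=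
  mul_nonneg (by positivity) (P.χ_nonneg _)

variable {M : Type}

/-- A_GREEN -/
theorem green_thm (hG : S_GLUE) : S_GREEN := by
  intro P M T _ μ p₀ r₀ hμ hb
  obtain ⟨G, hG1, hG2, hG3⟩ := hG P M T μ p₀ r₀ hμ hb
  have hρ := T.rho_pos
  refine ⟨fun x => Real.exp (- G x), ⟨Real.exp 1, fun x => ?_⟩, fun p => ?_, fun p => ?_, ?_⟩
  · rw [abs_of_pos (Real.exp_pos _), Real.exp_le_exp]
    linarith [hG3 x]
  · exact (hG1 p).neg.exp
  · have hcd : ContDiffAt ℝ 2 (fun z => G (T.Phi p z)) 0 :=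
      (hG1 p).contDiffAt (ball_mem_nhds 0 (hρ p))
    rw [lap_exp _ _ hcd, hG2 p]
    have h0 : 0 ≤ T.bump p₀ (fun w => (r₀⁻¹) ^ 2 * P.χ ((r₀⁻¹ : ℝ) * w)) p := by
      unfold Pool.GL.TS.bump
      split_ifs with h
      · exact KK_nonneg P r₀ _
      · exact le_rfl
    apply mul_nonneg (Real.exp_pos _).le
    nlinarith [sq_nonneg (dX (fun z => G (T.Phi p z)) 0), sq_nonneg (dY (fun z => G (T.Phi p z)) 0)]
  · by_contra hcon
    push Not at hcon
    have hconst : ∀ x y, G x = G y := by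
      intro x y
      have := Real.exp_injective (hcon x y)
      linarith
    have hb0 : ∀ p, T.bump p₀ (KK P r₀) p = 0 := by
      intro p
      have h1 := hG2 p
      have h2 : (fun z => G (T.Phi p z)) = fun _ => G p₀ := by
        funext z; exact hconst _ _
      rw [h2] at h1
      have h3 : lap (fun _ : ℂ => G p₀) 0 = 0 := by
        have e1 : dX (fun _ : ℂ => G p₀) = fun _ => 0 := by
          funext z; simp [dX]
        have e2 : dY (fun _ : ℂ => G p₀) = fun _ => 0 := by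
          funext z; simp [dY]
        simp only [lap]
        rw [e1, e2]
        simp [dX, dY]
      rw [h3] at h1
      have h4 : T.bump p₀ (fun w => (r₀⁻¹) ^ 2 * P.χ ((r₀⁻¹ : ℝ) * w)) p =
        T.bump p₀ (KK P r₀) p := rfl
      rw [h4] at h1
      linarith
    have hr₀ := hb.1
    have hr₀' := hb.2.1
    have hχ : ∀ w, P.χ w = 0 := by
      intro w
      by_cases hw : ‖w‖ < 1
      · have hn : ‖(r₀ : ℂ) * w‖ < T.rho p₀ / 4 := by
          rw [norm_mul, Complex.norm_real, Real.norm_eq_abs, abs_of_pos hr₀]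
          nlinarith [norm_nonneg w]
        have h1 := hb0 (T.Phi p₀ ((r₀ : ℂ) * w))
        unfold Pool.GL.TS.bump at h1
        have hex : ∃ z : ℂ, ‖z‖ < T.rho p₀ / 4 ∧ T.Phi p₀ ((r₀ : ℂ) * w) = T.Phi p₀ z :=
          ⟨_, hn, rfl⟩
        rw [dif_pos hex] at h1
        have hs := hex.choose_spec
        have h2 := T.Phi_inj p₀ _ _ (by linarith [hρ p₀]) (by linarith [hs.1, hρ p₀]) hs.2
        rw [← h2, KK] at h1
        have hne : (r₀ : ℂ) ≠ 0 := by exact_mod_cast hr₀.ne'
        have h3 : ((r₀⁻¹ : ℝ) : ℂ) * ((r₀ : ℂ) * w) = w := by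
          push_cast
          field_simp
        rw [h3] at h1
        exact (mul_eq_zero.1 h1).resolve_left (by positivity)
      · exact P.χ_supp w (not_lt.1 hw)
    have h1 := P.χ_int
    simp only [hχ, integral_zero] at h1
    exact zero_ne_one h1

end Helper51.GL
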