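import Pool.Agent.Helper78.GL.Spec

/-! Part A_INT of the GL blueprint (MP_a31c1c_an). -/

set_option autoImplicit false

open MeasureTheory Metric Set Filter Topology

namespace Helper51.GL

open Pool.GL Helper78.GL

variable {M : Type} (T : TS M)

/-- the trace of a flow disc in another flow disc is open -/
lemma isOpen_trace (hB : S_TSB) (p q : M) {r : ℝ} (hr : r ≤ T.rho p / 4) :
    IsOpen {z : ℂ | ‖z‖ < T.rho q / 4 ∧ T.Phi q z ∈ T.disc p r} := by
  by_cases hne : ∃ z : ℂ, ‖z‖ < T.rho q / 4 ∧ T.Phi q z ∈ T.disc p r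
  · obtain ⟨z₁, hz₁, w₁, hw₁, he⟩ := hne
    rw [mem_ball_zero_iff] at hw₁
    have hset : {z : ℂ | ‖z‖ < T.rho q / 4 ∧ T.Phi q z ∈ T.disc p r} =
        {z : ℂ | ‖z‖ < T.rho q / 4} ∩ {z : ℂ | ‖z + (w₁ - z₁)‖ < r} := by
      ext z
      simp only [mem_ofPred_eq, mem_inter_iff]
      constructor
      · rintro ⟨hz, w, hw, hw'⟩
        rw [mem_ball_zero_iff] at hw
        refine ⟨hz, ?_⟩
        have h1 := (hB M T q p z₁ w₁ hz₁ (by linarith) he.symm z w hz (by linarith)).1 hw'.symm
        rw [← h1]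
        have : z + (w - z) = w := by ring
        rwa [this]
      · rintro ⟨hz, hw⟩
        refine ⟨hz, z + (w₁ - z₁), by rwa [mem_ball_zero_iff], ?_⟩
        refine ((hB M T q p z₁ w₁ hz₁ (by linarith) he.symm z (z + (w₁ - z₁)) hz
          (by linarith)).2 ?_).symm
        ring
    rw [hset]
    exact (isOpen_lt continuous_norm continuous_const).inter
      (isOpen_lt (by fun_prop) continuous_const)
  · have : {z : ℂ | ‖z‖ < T.rho q / 4 ∧ T.Phi q z ∈ T.disc p r} = ∅ := by
      ext z
      simp only [mem_ofPred_eq, mem_empty_iff_false, iff_false]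
      exact fun h => hne ⟨z, h⟩
    rw [this]
    exact isOpen_empty

/-- A_INT -/
theorem int_thm (hB : S_TSB) : S_INT := by
  intro M T _ μ hμ
  obtain ⟨h1, h2⟩ := hμ
  have hdisc : ∀ p r, 0 < r → r ≤ T.rho p / 4 → MeasurableSet (T.disc p r) := by
    intro p r _ hr
    exact h1 _ fun q => (isOpen_trace T hB p q hr).measurableSet
  have hmeas : ∀ F : M → ℝ, T.Cont F → Measurable F := by
    intro F hF
    refine measurable_of_isOpen fun U hU => h1 _ fun p => ?_
    have hc : ContinuousOn (fun z => F (T.Phi p z)) (ball 0 (T.rho p / 4)) :=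
      (hF p).mono (ball_subset_ball (by have := T.rho_pos p; linarith))
    have := hc.isOpen_inter_preimage isOpen_ball hU
    convert this.measurableSet using 1
    ext z
    simp
  refine ⟨hdisc, hmeas, ?_, ?_⟩
  · intro F hF hS
    obtain ⟨S, hS1, hS2⟩ := hS
    have hIO : IntegrableOn F (⋃ a ∈ S, T.disc a.1 ((a.2 + T.rho a.1 / 4) / 2)) μ := by
      rw [integrableOn_finset_iUnion]
      intro a ha
      have ha' := hS1 a ha
      have hr0 : 0 < (a.2 + T.rho a.1 / 4) / 2 := by
        have := T.rho_pos a.1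
        linarith [ha'.1]
      have hr1 : (a.2 + T.rho a.1 / 4) / 2 ≤ T.rho a.1 / 4 := by linarith [ha'.2]
      obtain ⟨h3, h4⟩ := h2 a.1 _ hr0 hr1
      rw [IntegrableOn, h4, integrable_map_measure ((hmeas F hF).aestronglyMeasurable) h3]
      have hc : ContinuousOn (fun z => F (T.Phi a.1 z))
          (closedBall 0 ((a.2 + T.rho a.1 / 4) / 2)) := by
        refine (hF a.1).mono (closedBall_subset_ball ?_)
        have := T.rho_pos a.1
        linarith
      exact (hc.integrableOn_compact (isCompact_closedBall _ _)).mono_set ball_subset_closedBall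
    refine hIO.integrable_of_forall_notMem_eq_zero fun x hx => ?_
    by_contra hne
    obtain ⟨a, ha, z, hz, hxz⟩ := hS2 x hne
    apply hx
    simp only [mem_iUnion]
    refine ⟨a, ha, z, ?_, hxz.symm⟩
    rw [mem_ball_zero_iff]
    have ha' := hS1 a ha
    linarith [ha'.2]
  · intro F hF p r hr hr'
    obtain ⟨h3, h4⟩ := h2 p r hr hr'
    rw [h4, integral_map h3 ((hmeas F hF).aestronglyMeasurable)]

end Helper51.GL
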